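import Pool.Agent.helper76.FV.Defs
import Pool.Agent.helper27.FV.GA
import Pool.Agent.helper51.FV.GC

/-! Project FV, module GV (helper86): valuations of Jacobi sums -/

set_option autoImplicit false

namespace Pool.Agent.helper76.FV

open Finset NumberField

section GV

/-- `χ(g)` is a primitive root of unity if `g` is a generator. -/
theorem GV_prim {m p : ℕ} [Fact p.Prime] {R : Type*} [CommRing R]
    (χ : MulChar (ZMod p) R) (hχ : orderOf χ = m) (g : (ZMod p)ˣ)
    (hg : ∀ x, x ∈ Subgroup.zpowers g) : IsPrimitiveRoot (χ (g : ZMod p)) m := by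
  have key : ∀ l : ℕ, (χ (g : ZMod p)) ^ l = 1 ↔ χ ^ l = 1 := by
    intro l
    rw [MulChar.eq_iff hg, MulChar.pow_apply_coe, MulChar.one_apply_coe]
  constructor
  · rw [key, ← hχ]; exact pow_orderOf_eq_one χ
  · intro l hl
    rw [key] at hl
    rw [← hχ]; exact orderOf_dvd_of_pow_eq_one hl

variable {K : Type} [Field K] [NumberField K]

/-- The reduction of a character modulo a prime above `p`. -/
theorem GV_red {m p : ℕ} [Fact p.Prime] (hm : 2 ≤ m) (hp : p ≡ 1 [MOD m])
    (χ : MulChar (ZMod p) (𝓞 K)) (hχ : orderOf χ = m)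
    (v : IsDedekindDomain.HeightOneSpectrum (𝓞 K))
    [CharP (𝓞 K ⧸ v.asIdeal) p] :
    ∃ n c₁ : ℕ, p - 1 = m * n ∧ Nat.Coprime c₁ m ∧
      ∀ x : ZMod p, x ≠ 0 → Ideal.Quotient.mk v.asIdeal (χ x) =
        (ZMod.castHom (dvd_refl p) (𝓞 K ⧸ v.asIdeal) x) ^ (n * c₁) := by
  have hpp : p.Prime := Fact.out
  have hm0 : NeZero m := ⟨by omega⟩
  have hmax : v.asIdeal.IsMaximal := v.isMaximal
  let _ : Field (𝓞 K ⧸ v.asIdeal) := Ideal.Quotient.field v.asIdeal
  obtain ⟨g, hg⟩ := IsCyclic.exists_generator (α := (ZMod p)ˣ)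
  have hgo : orderOf g = p - 1 := by
    rw [orderOf_eq_card_of_forall_mem_zpowers hg, Nat.card_eq_fintype_card, ZMod.card_units]
  set f := ZMod.castHom (dvd_refl p) (𝓞 K ⧸ v.asIdeal) with hf
  have hfinj : Function.Injective f := RingHom.injective f
  have hz0 : IsPrimitiveRoot (f (g : ZMod p)) (p - 1) := by
    have h1 : IsPrimitiveRoot g (p - 1) := hgo ▸ IsPrimitiveRoot.orderOf g
    exact (IsPrimitiveRoot.coe_units_iff.mpr h1).map_of_injective hfinj
  -- p - 1 = m n
  have hdvd : m ∣ p - 1 := (Nat.modEq_iff_dvd' hpp.one_lt.le).1 hp.symm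
  obtain ⟨n, hn⟩ := hdvd
  have hp1 : 0 < p - 1 := by have := hpp.two_le; omega
  have hn0 : 0 < n := by
    rcases Nat.eq_zero_or_pos n with h | h
    · rw [h] at hn; omega
    · exact h
  have hprim := GV_prim χ hχ g hg
  set y := Ideal.Quotient.mk v.asIdeal (χ (g : ZMod p)) with hy
  have hyprim : IsPrimitiveRoot y m := by
    apply hprim.idealQuotient_mk
    · rw [Ne, Ideal.absNorm_eq_one_iff]; exact hmax.ne_top
    · have : Finite (𝓞 K ⧸ v.asIdeal) := inferInstance
      let _ : Fintype (𝓞 K ⧸ v.asIdeal) := Fintype.ofFinite _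
      obtain ⟨e, -, he⟩ := FiniteField.card (𝓞 K ⧸ v.asIdeal) p
      have h1 : Ideal.absNorm v.asIdeal = p ^ (e : ℕ) := by
        rw [← he, Ideal.absNorm_apply, Submodule.cardQuot_apply, Nat.card_eq_fintype_card]
      rw [h1]
      apply Nat.Coprime.pow_left
      rw [Nat.Coprime, Nat.ModEq.gcd_eq hp]
      simp
  have hnz : NeZero (p - 1) := ⟨hp1.ne'⟩
  obtain ⟨A, hA1, hA2⟩ := hz0.eq_pow_of_pow_eq_one (ξ := y) (by
    rw [hn, pow_mul, hyprim.pow_eq_one, one_pow])
  have hAn : n ∣ A := by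
    have h1 : f (g : ZMod p) ^ (A * m) = 1 := by
      rw [pow_mul, hA2, hyprim.pow_eq_one]
    have h2 := hz0.dvd_of_pow_eq_one _ h1
    rw [hn, mul_comm A m] at h2
    exact (Nat.mul_dvd_mul_iff_left (by omega)).1 h2
  obtain ⟨c₁, hc₁⟩ := hAn
  refine ⟨n, c₁, hn, ?_, ?_⟩
  · -- coprimality
    by_contra hcop
    set d := Nat.gcd c₁ m with hd
    obtain ⟨m', hm'⟩ : d ∣ m := Nat.gcd_dvd_right _ _
    obtain ⟨c', hc'⟩ : d ∣ c₁ := Nat.gcd_dvd_left _ _
    have hd1 : d ≠ 1 := hcop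
    have hd0 : 0 < d := Nat.gcd_pos_of_pos_right _ (by omega)
    have h1 : y ^ m' = 1 := by
      rw [← hA2, ← pow_mul, hc₁]
      have : n * c₁ * m' = (p - 1) * c' := by
        rw [hn, hm']
        calc n * c₁ * m' = n * (d * c') * m' := by rw [← hc']
          _ = d * m' * n * c' := by ring
      rw [this, pow_mul, hz0.pow_eq_one, one_pow]
    have h2 := hyprim.dvd_of_pow_eq_one _ h1
    have hm'0 : 0 < m' := by
      rcases Nat.eq_zero_or_pos m' with h | h
      · rw [h] at hm'; omega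
      · exact h
    have h3 := Nat.le_of_dvd hm'0 h2
    have h4 : 2 ≤ d := by omega
    nlinarith
  · intro x hx
    obtain ⟨j, hj⟩ := (mem_powers_iff_mem_zpowers (x := g) (y := Units.mk0 x hx)).2 (hg _)
    have hxj : x = (g : ZMod p) ^ j := by
      have := congrArg (Units.val) hj
      simp only [Units.val_pow_eq_pow_val, Units.val_mk0] at this
      exact this.symm
    rw [hxj, map_pow, map_pow, map_pow, ← hc₁, ← pow_mul, mul_comm, pow_mul, hA2]

/-- Jacobi sums modulo a prime above `p`. -/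
theorem GV_J {m p : ℕ} [Fact p.Prime] (hm : 2 ≤ m) (χ : MulChar (ZMod p) (𝓞 K))
    (hχ : orderOf χ = m)
    (v : IsDedekindDomain.HeightOneSpectrum (𝓞 K))
    [CharP (𝓞 K ⧸ v.asIdeal) p] (n c₁ : ℕ) (hn : p - 1 = m * n)
    (hred : ∀ x : ZMod p, x ≠ 0 → Ideal.Quotient.mk v.asIdeal (χ x) =
        (ZMod.castHom (dvd_refl p) (𝓞 K ⧸ v.asIdeal) x) ^ (n * c₁))
    (a b : ZMod m) (ha : (c₁ : ZMod m) * a ≠ 0) (hb : (c₁ : ZMod m) * b ≠ 0)
    (hab : (c₁ : ZMod m) * (a + b) ≠ 0) :
    jacobiSum (χ ^ a.val) (χ ^ b.val) ∈ v.asIdeal ↔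
      ((c₁ : ZMod m) * a).val + ((c₁ : ZMod m) * b).val < m := by
  have hpp : p.Prime := Fact.out
  have hm0 : NeZero m := ⟨by omega⟩
  have hmax : v.asIdeal.IsMaximal := v.isMaximal
  let _ : Field (𝓞 K ⧸ v.asIdeal) := Ideal.Quotient.field v.asIdeal
  set f := ZMod.castHom (dvd_refl p) (𝓞 K ⧸ v.asIdeal) with hf
  have hfinj : Function.Injective f := RingHom.injective f
  have hp1 : 0 < p - 1 := by have := hpp.two_le; omega
  have hn0 : 0 < n := by
    rcases Nat.eq_zero_or_pos n with h | h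
    · rw [h] at hn; omega
    · exact h
  -- the character values
  have hval : ∀ a : ZMod m, (c₁ : ZMod m) * a ≠ 0 → ∀ x : ZMod p,
      Ideal.Quotient.mk v.asIdeal ((χ ^ a.val) x) = f (x ^ (n * ((c₁ : ZMod m) * a).val)) := by
    intro a ha x
    have hpos : 0 < ((c₁ : ZMod m) * a).val := by
      rw [Nat.pos_iff_ne_zero, Ne, ZMod.val_eq_zero]; exact ha
    by_cases hx : x = 0
    · subst hx
      rw [MulChar.map_zero, map_zero, zero_pow (Nat.mul_pos hn0 hpos).ne', map_zero]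
    · have hxu : (x : ZMod p) = ((Units.mk0 x hx : (ZMod p)ˣ) : ZMod p) := rfl
      have h1 : (χ ^ a.val) x = (χ x) ^ a.val := by
        rw [hxu, MulChar.pow_apply_coe]
      rw [h1, map_pow, hred x hx, ← pow_mul, map_pow]
      -- congruence of exponents
      have h2 : (n * c₁ * a.val) ≡ (n * ((c₁ : ZMod m) * a).val) [MOD (p - 1)] := by
        rw [hn, mul_comm m n, mul_assoc]
        apply Nat.ModEq.mul_left'
        have : ((c₁ * a.val : ℕ) : ZMod m) = ((((c₁ : ZMod m) * a).val : ℕ) : ZMod m) := by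
          push_cast
          rw [ZMod.natCast_zmod_val, ZMod.natCast_zmod_val]
        exact (ZMod.natCast_eq_natCast_iff _ _ _).1 this
      have h3 : f x ^ (p - 1) = 1 := by
        rw [← map_pow, ZMod.pow_card_sub_one_eq_one hx, map_one]
      rw [pow_eq_pow_mod (n * c₁ * a.val) h3, pow_eq_pow_mod (n * ((c₁ : ZMod m) * a).val) h3]
      exact congrArg _ h2
  have hA0 : 0 < ((c₁ : ZMod m) * a).val := by
    rw [Nat.pos_iff_ne_zero, Ne, ZMod.val_eq_zero]; exact ha
  have hB0 : 0 < ((c₁ : ZMod m) * b).val := by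
    rw [Nat.pos_iff_ne_zero, Ne, ZMod.val_eq_zero]; exact hb
  have hAm := ZMod.val_lt ((c₁ : ZMod m) * a)
  have hBm := ZMod.val_lt ((c₁ : ZMod m) * b)
  set A := ((c₁ : ZMod m) * a).val with hA
  set B := ((c₁ : ZMod m) * b).val with hB
  have hABm : A + B ≠ m := by
    intro h
    apply hab
    have h1 : ((A + B : ℕ) : ZMod m) = 0 := by rw [h, ZMod.natCast_self]
    rw [hA, hB] at h1
    push_cast at h1
    rw [ZMod.natCast_zmod_val, ZMod.natCast_zmod_val] at h1
    rw [mul_add]; exact h1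
  have hJ : Ideal.Quotient.mk v.asIdeal (jacobiSum (χ ^ a.val) (χ ^ b.val)) =
      f (∑ x : ZMod p, x ^ (n * A) * (1 - x) ^ (n * B)) := by
    rw [jacobiSum, map_sum, map_sum]
    refine Finset.sum_congr rfl fun x _ => ?_
    rw [map_mul, map_mul, hval a ha x, hval b hb (1 - x)]
  rw [← Ideal.Quotient.eq_zero_iff_mem, hJ, map_eq_zero_iff f hfinj,
    pow_sum p (n * A) (n * B) (Nat.mul_pos hn0 hA0) (Nat.mul_pos hn0 hB0)
      (by rw [hn, mul_comm m n]; exact Nat.mul_lt_mul_of_pos_left hAm hn0)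
      (by rw [hn, mul_comm m n]; exact Nat.mul_lt_mul_of_pos_left hBm hn0)
      (by rw [hn, mul_comm m n, ← mul_add]; intro h; exact hABm (Nat.eq_of_mul_eq_mul_left hn0 h)),
    hn, mul_comm m n, ← mul_add]
  exact Nat.mul_lt_mul_left hn0

/-- Local form of the valuation formula. -/
theorem GV_coc {m p : ℕ} [Fact p.Prime] (hm : 2 ≤ m) (χ : MulChar (ZMod p) (𝓞 K))
    (hχ : orderOf χ = m)
    (v : IsDedekindDomain.HeightOneSpectrum (𝓞 K))
    [CharP (𝓞 K ⧸ v.asIdeal) p] (n c₁ : ℕ) (hn : p - 1 = m * n)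
    (c : (ZMod m)ˣ) (hc : (c : ZMod m) = -(c₁ : ZMod m))
    (hred : ∀ x : ZMod p, x ≠ 0 → Ideal.Quotient.mk v.asIdeal (χ x) =
        (ZMod.castHom (dvd_refl p) (𝓞 K ⧸ v.asIdeal) x) ^ (n * c₁))
    (a b : ZMod m) :
    (v.valuation K (algebraMap (𝓞 K) K (coc χ a b))) ^ m *
      (v.valuation K (p : K)) ^ ((c : ZMod m) * (a + b)).val =
    (v.valuation K (p : K)) ^ (((c : ZMod m) * a).val + ((c : ZMod m) * b).val) := by
  have hpp : p.Prime := Fact.out
  have hm0 : NeZero m := ⟨by omega⟩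
  have hcu : IsUnit (c₁ : ZMod m) := by
    have : (c₁ : ZMod m) = ((-c : (ZMod m)ˣ) : ZMod m) := by
      rw [Units.val_neg, hc, neg_neg]
    rw [this]; exact Units.isUnit _
  have hc1 : ∀ a : ZMod m, a ≠ 0 → (c₁ : ZMod m) * a ≠ 0 := by
    intro a ha h
    exact ha ((hcu.mul_right_eq_zero).1 h)
  have hcval : ∀ a : ZMod m, a ≠ 0 → ((c : ZMod m) * a).val = m - ((c₁ : ZMod m) * a).val := by
    intro a ha
    rw [hc, neg_mul, ZMod.neg_val, if_neg (hc1 a ha)]
  have hpow : ∀ a b : ZMod m, χ ^ a.val * χ ^ b.val = χ ^ (a + b).val := by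
    intro a b
    rw [← pow_add, pow_eq_pow_iff_modEq, hχ]
    have : ((a.val + b.val : ℕ) : ZMod m) = (((a + b).val : ℕ) : ZMod m) := by
      push_cast
      rw [ZMod.natCast_zmod_val, ZMod.natCast_zmod_val, ZMod.natCast_zmod_val]
    exact (ZMod.natCast_eq_natCast_iff _ _ _).1 this
  have hne : ∀ x : ZMod m, x ≠ 0 → χ ^ x.val ≠ 1 := by
    intro x hx h1
    rw [← orderOf_dvd_iff_pow_eq_one, hχ] at h1
    have h2 := Nat.eq_zero_of_dvd_of_lt h1 (ZMod.val_lt x)
    exact hx ((ZMod.val_eq_zero x).1 h2)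
  have hvp : algebraMap (𝓞 K) K (p : 𝓞 K) = (p : K) := by simp
  unfold coc
  split_ifs with h1 h2
  · rcases h1 with rfl | rfl
    · rw [map_neg, map_one, Valuation.map_neg, map_one, one_pow, one_mul, zero_add, mul_zero,
        ZMod.val_zero, zero_add]
    · rw [map_neg, map_one, Valuation.map_neg, map_one, one_pow, one_mul, add_zero, mul_zero,
        ZMod.val_zero, add_zero]
  · push Not at h1
    obtain ⟨ha, hb⟩ := h1
    rw [h2, mul_zero, ZMod.val_zero, pow_zero, mul_one, map_neg, Valuation.map_neg, map_mul,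
      Valuation.map_mul]
    have hu : v.valuation K (algebraMap (𝓞 K) K ((χ ^ a.val) (-1))) = 1 := by
      rw [v.valuation_eq_one_iff_notMem]
      intro hmem
      have hunit : IsUnit ((χ ^ a.val) (-1)) := by
        have : (-1 : ZMod p) = ((-1 : (ZMod p)ˣ) : ZMod p) := by simp
        rw [this]
        exact (Units.isUnit (-1 : (ZMod p)ˣ)).map (χ ^ a.val)
      exact v.isPrime.ne_top (Ideal.eq_top_of_isUnit_mem _ hmem hunit)
    rw [hu, one_mul, hvp]
    congr 1
    have hb' : b = -a := by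
      have := h2
      exact (neg_eq_of_add_eq_zero_right this).symm
    have h3 : (c : ZMod m) * b = -((c : ZMod m) * a) := by rw [hb']; ring
    have h4 : (c : ZMod m) * a ≠ 0 := by
      intro h; exact ha ((Units.mul_right_eq_zero c).1 h)
    rw [h3, ZMod.neg_val, if_neg h4]
    have := ZMod.val_lt ((c : ZMod m) * a)
    omega
  · push Not at h1
    obtain ⟨ha, hb⟩ := h1
    have hJ := GV_J hm χ hχ v n c₁ hn hred a b (hc1 a ha) (hc1 b hb) (hc1 _ h2)
    have h2' : -a + -b ≠ 0 := by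
      intro h; apply h2
      have : a + b = -(-a + -b) := by ring
      rw [this, h, neg_zero]
    have hna : -a ≠ 0 := neg_ne_zero.2 ha
    have hnb : -b ≠ 0 := neg_ne_zero.2 hb
    have hJ' := GV_J hm χ hχ v n c₁ hn hred (-a) (-b) (hc1 _ hna) (hc1 _ hnb) (hc1 _ h2')
    -- product formula
    have hprod : algebraMap (𝓞 K) K (jacobiSum (χ ^ a.val) (χ ^ b.val)) *
        algebraMap (𝓞 K) K (jacobiSum (χ ^ (-a).val) (χ ^ (-b).val)) = (p : K) := by
      have hinj : Function.Injective (algebraMap (𝓞 K) K) := RingOfIntegers.coe_injective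
      have hinv : ∀ a : ZMod m, (χ ^ (-a).val) = (χ ^ a.val)⁻¹ := by
        intro a
        rw [eq_comm, inv_eq_iff_mul_eq_one, hpow, add_neg_cancel, ZMod.val_zero, pow_zero]
      rw [← jacobiSum_ringHomComp, ← jacobiSum_ringHomComp, hinv, hinv,
        ← MulChar.ringHomComp_inv, ← MulChar.ringHomComp_inv]
      have h5 := jacobiSum_mul_jacobiSum_inv (F := ZMod p) (F' := K)
        (χ := (χ ^ a.val).ringHomComp (algebraMap (𝓞 K) K))
        (φ := (χ ^ b.val).ringHomComp (algebraMap (𝓞 K) K)) (by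
          rw [ringChar.eq_zero, ZMod.ringChar_zmod_n]
          exact hpp.ne_zero.symm)
        ((MulChar.ringHomComp_ne_one_iff hinj).mpr (hne a ha))
        ((MulChar.ringHomComp_ne_one_iff hinj).mpr (hne b hb))
        (by
          rw [← MulChar.ringHomComp_mul, hpow]
          exact (MulChar.ringHomComp_ne_one_iff hinj).mpr (hne _ h2))
      rw [h5, ZMod.card]
    have hvprod := congrArg (v.valuation K) hprod
    rw [Valuation.map_mul] at hvprod
    have hA := hcval a ha
    have hB := hcval b hb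
    have hAB := hcval (a + b) h2
    have hAm := ZMod.val_lt ((c₁ : ZMod m) * a)
    have hBm := ZMod.val_lt ((c₁ : ZMod m) * b)
    have hA0 : 0 < ((c₁ : ZMod m) * a).val := by
      rw [Nat.pos_iff_ne_zero, Ne, ZMod.val_eq_zero]; exact hc1 a ha
    have hB0 : 0 < ((c₁ : ZMod m) * b).val := by
      rw [Nat.pos_iff_ne_zero, Ne, ZMod.val_eq_zero]; exact hc1 b hb
    have hadd : ((c₁ : ZMod m) * (a + b)).val =
        (((c₁ : ZMod m) * a).val + ((c₁ : ZMod m) * b).val) % m := by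
      rw [mul_add, ZMod.val_add]
    have hnA : ((c₁ : ZMod m) * (-a)).val = m - ((c₁ : ZMod m) * a).val := by
      rw [mul_neg, ZMod.neg_val, if_neg (hc1 a ha)]
    have hnB : ((c₁ : ZMod m) * (-b)).val = m - ((c₁ : ZMod m) * b).val := by
      rw [mul_neg, ZMod.neg_val, if_neg (hc1 b hb)]
    have hABm : ((c₁ : ZMod m) * a).val + ((c₁ : ZMod m) * b).val ≠ m := by
      intro h
      rw [h, Nat.mod_self] at hadd
      exact hc1 _ h2 ((ZMod.val_eq_zero _).1 hadd)
    rcases lt_or_gt_of_ne hABm with hlt | hgt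
    · -- J ∈ v, J' ∉ v
      have hJ'n : jacobiSum (χ ^ (-a).val) (χ ^ (-b).val) ∉ v.asIdeal := by
        rw [hJ', hnA, hnB]; omega
      rw [← v.valuation_eq_one_iff_notMem (K := K)] at hJ'n
      rw [hJ'n, mul_one] at hvprod
      rw [hvprod, ← pow_add]
      congr 1
      rw [hA, hB, hAB, hadd, Nat.mod_eq_of_lt hlt]
      omega
    · have hJn : jacobiSum (χ ^ a.val) (χ ^ b.val) ∉ v.asIdeal := by
        rw [hJ]; omega
      rw [← v.valuation_eq_one_iff_notMem (K := K)] at hJn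
      rw [hJn, one_pow, one_mul]
      congr 1
      have hmod : (((c₁ : ZMod m) * a).val + ((c₁ : ZMod m) * b).val) % m =
          ((c₁ : ZMod m) * a).val + ((c₁ : ZMod m) * b).val - m := by
        rw [Nat.mod_eq_sub_mod hgt.le, Nat.mod_eq_of_lt (by omega)]
      rw [hA, hB, hAB, hadd, hmod]
      omega

theorem jac_val {m p : ℕ} [Fact p.Prime] (hm : 2 ≤ m) (hp : p ≡ 1 [MOD m]) {K : Type}
    [Field K] [NumberField K] (χ : MulChar (ZMod p) (𝓞 K)) (hχ : orderOf χ = m)
    (v : IsDedekindDomain.HeightOneSpectrum (𝓞 K)) (hv : (p : 𝓞 K) ∈ v.asIdeal) :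
    ∃ c : (ZMod m)ˣ, ∀ (k : ℕ) (a : Fin k → ZMod m), ∑ i, a i = 0 →
      (v.valuation K (algebraMap (𝓞 K) K (jac χ a))) ^ m =
        (v.valuation K (p : K)) ^ (∑ i, ((c : ZMod m) * a i).val) := by
  have hpp : p.Prime := Fact.out
  have hm0 : NeZero m := ⟨by omega⟩
  have hmax : v.asIdeal.IsMaximal := v.isMaximal
  have hcp : CharP (𝓞 K ⧸ v.asIdeal) p := by
    have hnt : Nontrivial (𝓞 K ⧸ v.asIdeal) := Ideal.Quotient.nontrivial_iff.2 hmax.ne_top
    rw [CharP.charP_iff_prime_eq_zero hpp, ← map_natCast (Ideal.Quotient.mk v.asIdeal) p,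
      Ideal.Quotient.eq_zero_iff_mem]
    exact hv
  obtain ⟨n, c₁, hn, hcop, hred⟩ := GV_red hm hp χ hχ v
  let c : (ZMod m)ˣ := -(ZMod.unitOfCoprime c₁ hcop)
  have hc : (c : ZMod m) = -(c₁ : ZMod m) := by
    simp [c, ZMod.coe_unitOfCoprime]
  refine ⟨c, ?_⟩
  have key : ∀ (k : ℕ) (a : Fin k → ZMod m),
      (v.valuation K (algebraMap (𝓞 K) K (jac χ a))) ^ m *
        (v.valuation K (p : K)) ^ ((c : ZMod m) * ∑ i, a i).val =
      (v.valuation K (p : K)) ^ (∑ i, ((c : ZMod m) * a i).val) := by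
    intro k
    induction k with
    | zero => intro a; simp [jac]
    | succ k ih =>
      intro a
      have ih' := ih (fun i => a i.castSucc)
      have h1 : jac χ a = jac χ (fun i : Fin k => a i.castSucc) *
          coc χ (∑ i : Fin k, a i.castSucc) (a (Fin.last k)) := by
        unfold jac
        rw [Fin.prod_univ_castSucc]
        congr 1
        · refine Finset.prod_congr rfl fun i _ => ?_
          congr 1
          rw [Finset.sum_filter, Finset.sum_filter, Fin.sum_univ_castSucc, if_neg, add_zero]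
          · rfl
          · exact not_lt.2 (Fin.le_last _)
        · congr 1
          rw [Finset.sum_filter, Fin.sum_univ_castSucc, if_neg (lt_irrefl _), add_zero]
          refine Finset.sum_congr rfl fun i _ => ?_
          rw [if_pos (Fin.castSucc_lt_last i)]
      rw [h1, map_mul, Valuation.map_mul, mul_pow, Fin.sum_univ_castSucc, Fin.sum_univ_castSucc,
        mul_assoc, GV_coc hm χ hχ v n c₁ hn c hc hred, pow_add, ← mul_assoc, ih', ← pow_add]
  intro k a hs
  have := key k a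
  rw [hs, mul_zero, ZMod.val_zero, pow_zero, mul_one] at this
  exact this

end GV

end Pool.Agent.helper76.FV
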